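import Mathlib
import Pool.Agent.H23.Nil3

set_option autoImplicit false

namespace Pool.Agent.Results.MP_6be952_lc.Uncountable

open Pool.Agent.H23.DIP

theorem result : ¬ Set.Countable {R : Set Fm → Fm → Prop |
    ∃ Ax : Set Fm, Closed Ax ∧ R = Cons Prelin Ax ∧ HasDIP R} :=
  uncountable fun _ _ h => h

end Pool.Agent.Results.MP_6be952_lc.Uncountable
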